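import Pool.Agent.H68.RG.K2A
import Pool.Agent.H25.TRI.BRI

/-!
# The heat extension of test functions: joint continuity, convergence, contraction (REG, part C, K2)
-/

set_option autoImplicit false

namespace Pool.Agent.H38.TRI

open MeasureTheory Set Filter Topology
open Pool.Agent.H31.TRI
open Pool.Agent.H25.TRI (gam U U_eq_heat)
open Pool.Agent.H68.RG (K_pos K_integrable K_integral)
open scoped ContDiff

theorem gam_eq {n : ℕ} (z : E n) : gam z = K 1 z := by
  unfold gam K
  rw [mul_one]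
  congr 2
  ring

theorem gam_pos {n : ℕ} (z : E n) : 0 < gam z := by
  rw [gam_eq]
  exact K_pos 1 one_pos z

theorem gam_cont {n : ℕ} : Continuous (gam : E n → ℝ) := by
  unfold gam
  exact continuous_const.mul (Real.continuous_exp.comp
    ((continuous_norm.pow 2).neg.div_const 4))

theorem gam_integrable {n : ℕ} : Integrable (gam : E n → ℝ) := by
  have h : (gam : E n → ℝ) = K 1 := funext gam_eq
  rw [h]
  exact K_integrable 1 one_pos

theorem gam_integral {n : ℕ} : ∫ z : E n, gam z = 1 := by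
  have h : (gam : E n → ℝ) = K 1 := funext gam_eq
  rw [h]
  exact K_integral 1 one_pos

theorem texp (t : ℝ) : t * Real.exp (-(t ^ 2) / 8) ≤ 2 := by
  have h1 : t ^ 2 / 8 + 1 ≤ Real.exp (t ^ 2 / 8) := Real.add_one_le_exp _
  have h2 : Real.exp (-(t ^ 2) / 8) = (Real.exp (t ^ 2 / 8))⁻¹ := by
    rw [← Real.exp_neg]
    congr 1
    ring
  have h3 : 0 < Real.exp (t ^ 2 / 8) := Real.exp_pos _
  rw [h2, ← div_eq_mul_inv, div_le_iff₀ h3]
  nlinarith [sq_nonneg (t - 2)]

theorem gam_mom {n : ℕ} : Integrable fun z : E n => gam z * ‖z‖ := by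
  have hpi := Real.pi_pos
  set c : ℝ := (4 * Real.pi) ^ (-(n : ℝ) / 2) * ((4 * Real.pi * 2) ^ (-(n : ℝ) / 2))⁻¹ * 2
    with hc
  have hd : 0 < (4 * Real.pi * 2) ^ (-(n : ℝ) / 2) := Real.rpow_pos_of_pos (by positivity) _
  have he : 0 < (4 * Real.pi) ^ (-(n : ℝ) / 2) := Real.rpow_pos_of_pos (by positivity) _
  refine Integrable.mono' ((K_integrable (n := n) 2 two_pos).const_mul c)
    (gam_cont.mul continuous_norm).aestronglyMeasurable (Eventually.of_forall fun z => ?_)
  rw [Real.norm_eq_abs, abs_of_nonneg (mul_nonneg (gam_pos z).le (norm_nonneg z))]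
  unfold gam K
  have h1 : Real.exp (-(‖z‖ ^ 2) / 4) =
      Real.exp (-(‖z‖ ^ 2) / 8) * Real.exp (-(‖z‖ ^ 2 / (4 * 2))) := by
    rw [← Real.exp_add]
    congr 1
    ring
  have h2 := texp ‖z‖
  rw [h1, hc]
  have h3 : 0 < Real.exp (-(‖z‖ ^ 2 / (4 * 2))) := Real.exp_pos _
  calc (4 * Real.pi) ^ (-(n : ℝ) / 2) *
        (Real.exp (-(‖z‖ ^ 2) / 8) * Real.exp (-(‖z‖ ^ 2 / (4 * 2)))) * ‖z‖
      = (4 * Real.pi) ^ (-(n : ℝ) / 2) * Real.exp (-(‖z‖ ^ 2 / (4 * 2))) *
        (‖z‖ * Real.exp (-(‖z‖ ^ 2) / 8)) := by ring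
    _ ≤ (4 * Real.pi) ^ (-(n : ℝ) / 2) * Real.exp (-(‖z‖ ^ 2 / (4 * 2))) * 2 :=
        mul_le_mul_of_nonneg_left h2 (by positivity)
    _ = _ := by
        field_simp

theorem tf_bdd {n : ℕ} {f : E n → ℝ} (hf : TF f) : ∃ C : ℝ, ∀ x, |f x| ≤ C := by
  obtain ⟨C, hC⟩ := hf.2.exists_bound_of_continuous hf.1.continuous
  exact ⟨C, fun x => by simpa [Real.norm_eq_abs] using hC x⟩

theorem U_cont {n : ℕ} {f : E n → ℝ} (hf : Continuous f) {C : ℝ} (hC : ∀ x, |f x| ≤ C) :
    Continuous fun p : ℝ × E n => U f p.1 p.2 := by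
  unfold U
  refine continuous_of_dominated (bound := fun z => gam z * C) ?_ ?_
    (gam_integrable.mul_const C) ?_
  · intro p
    refine Continuous.aestronglyMeasurable ?_
    exact gam_cont.mul (hf.comp (continuous_const.sub (continuous_id.const_smul (Real.sqrt p.1))))
  · intro p
    refine Eventually.of_forall fun z => ?_
    rw [norm_mul, Real.norm_eq_abs, Real.norm_eq_abs, abs_of_pos (gam_pos z)]
    exact mul_le_mul_of_nonneg_left (hC _) (gam_pos z).le
  · refine Eventually.of_forall fun z => ?_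
    refine continuous_const.mul (hf.comp ?_)
    exact continuous_snd.sub ((Real.continuous_sqrt.comp continuous_fst).smul continuous_const)

theorem pf_CONT : T_CONT := by
  intro n f hf
  obtain ⟨C, hC⟩ := tf_bdd hf
  have h1 := (U_cont hf.1.continuous hC).continuousOn (s := Ioi (0 : ℝ) ×ˢ (univ : Set (E n)))
  refine h1.congr fun p hp => ?_
  exact (U_eq_heat f hp.1 p.2).symm

theorem pf_ZER : T_ZER := by
  intro n f hf
  obtain ⟨L, hL⟩ : ∃ L : NNReal, LipschitzWith L f :=
    hf.1.lipschitzWith_of_hasCompactSupport hf.2 (by simp)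
  obtain ⟨C, hC⟩ := tf_bdd hf
  refine ⟨L * ∫ z : E n, gam z * ‖z‖, fun s x hs => ?_⟩
  rw [← U_eq_heat f hs x]
  have i1 : Integrable fun z : E n => gam z * f (x - Real.sqrt s • z) := by
    refine Integrable.mono' (gam_integrable.mul_const C)
      (gam_cont.mul (hf.1.continuous.comp (continuous_const.sub
        (continuous_id.const_smul (Real.sqrt s))))).aestronglyMeasurable
      (Eventually.of_forall fun z => ?_)
    rw [norm_mul, Real.norm_eq_abs, Real.norm_eq_abs, abs_of_pos (gam_pos z)]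
    exact mul_le_mul_of_nonneg_left (hC _) (gam_pos z).le
  have h1 : U f s x - f x = ∫ z : E n, (gam z * f (x - Real.sqrt s • z) - gam z * f x) := by
    rw [integral_sub i1 (gam_integrable.mul_const _), integral_mul_const, gam_integral, one_mul]
    rfl
  rw [h1]
  have h2 : ∀ z : E n, ‖gam z * f (x - Real.sqrt s • z) - gam z * f x‖ ≤
      (L * Real.sqrt s) * (gam z * ‖z‖) := by
    intro z
    rw [← mul_sub, norm_mul, Real.norm_eq_abs (gam z), abs_of_pos (gam_pos z)]
    have h3 : ‖f (x - Real.sqrt s • z) - f x‖ ≤ L * (Real.sqrt s * ‖z‖) := by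
      have h4 := hL.dist_le_mul (x - Real.sqrt s • z) x
      rw [dist_eq_norm, dist_eq_norm] at h4
      refine h4.trans (le_of_eq ?_)
      congr 1
      rw [sub_sub_cancel_left, norm_neg, norm_smul, Real.norm_eq_abs,
        abs_of_nonneg (Real.sqrt_nonneg s)]
    calc gam z * ‖f (x - Real.sqrt s • z) - f x‖ ≤ gam z * (L * (Real.sqrt s * ‖z‖)) :=
          mul_le_mul_of_nonneg_left h3 (gam_pos z).le
      _ = (L * Real.sqrt s) * (gam z * ‖z‖) := by ring
  have h5 := norm_integral_le_of_norm_le (gam_mom.const_mul (L * Real.sqrt s))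
    (Eventually.of_forall h2)
  rw [integral_const_mul, Real.norm_eq_abs] at h5
  refine h5.trans (le_of_eq ?_)
  ring

theorem L1 {n : ℕ} {g : E n → ℝ} (hg : Continuous g) (hs : HasCompactSupport g) {s : ℝ}
    (h0 : 0 < s) : Integrable (heat g s) ∧ (∫ x, |heat g s x|) ≤ ∫ x, |g x| := by
  have hgi : Integrable g := hg.integrable_of_hasCompactSupport hs
  have hKi : Integrable (K s : E n → ℝ) := K_integrable s h0
  have h1 : Integrable (heat g s) := by
    have h2 := hKi.integrable_convolution (ContinuousLinearMap.mul ℝ ℝ) hgi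
    exact h2
  refine ⟨h1, ?_⟩
  have h3 : ∫⁻ x, ‖heat g s x‖ₑ ≤ ∫⁻ x, ‖g x‖ₑ := by
    calc ∫⁻ x, ‖heat g s x‖ₑ ≤ ∫⁻ x, ∫⁻ y, ‖K s y‖ₑ * ‖g (x - y)‖ₑ := by
          refine lintegral_mono fun x => ?_
          unfold heat
          refine (enorm_integral_le_lintegral_enorm _).trans (le_of_eq ?_)
          exact lintegral_congr fun z => enorm_mul _ _
      _ = ∫⁻ y, ∫⁻ x, ‖K s y‖ₑ * ‖g (x - y)‖ₑ := by
          refine lintegral_lintegral_swap (Measurable.aemeasurable ?_)
          have hKc : Continuous (K s : E n → ℝ) := by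
            unfold K
            exact continuous_const.mul (Real.continuous_exp.comp
              ((continuous_norm.pow 2).div_const (4 * s)).neg)
          have m1 : Measurable fun p : E n × E n => ‖K s p.2‖ₑ :=
            (hKc.measurable.comp measurable_snd).enorm
          have m2 : Measurable fun p : E n × E n => ‖g (p.1 - p.2)‖ₑ :=
            (hg.comp (continuous_fst.sub continuous_snd)).measurable.enorm
          exact m1.mul m2
      _ = ∫⁻ y, ‖K s y‖ₑ * ∫⁻ x, ‖g x‖ₑ := by
          refine lintegral_congr fun y => ?_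
          rw [lintegral_const_mul' _ _ enorm_ne_top]
          congr 1
          exact lintegral_sub_right_eq_self (fun x => ‖g x‖ₑ) y
      _ = ∫⁻ x, ‖g x‖ₑ := by
          have h4 : ∫⁻ y : E n, ‖K s y‖ₑ = 1 := by
            rw [← ofReal_integral_norm_eq_lintegral_enorm hKi]
            have h5 : ∫ z : E n, ‖K s z‖ = 1 := by
              rw [← K_integral (n := n) s h0]
              refine integral_congr_ae (Eventually.of_forall fun z => ?_)
              exact abs_of_pos (K_pos s h0 z)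
            rw [h5, ENNReal.ofReal_one]
          rw [lintegral_mul_const'' _ hKi.1.enorm, h4, one_mul]
  have h6 : ∫ x, |heat g s x| = (∫⁻ x, ‖heat g s x‖ₑ).toReal := by
    rw [← integral_norm_eq_lintegral_enorm h1.1]
    rfl
  have h7 : ∫ x, |g x| = (∫⁻ x, ‖g x‖ₑ).toReal := by
    rw [← integral_norm_eq_lintegral_enorm hgi.1]
    rfl
  rw [h6, h7]
  exact ENNReal.toReal_mono hgi.2.ne h3

theorem jensen {n : ℕ} {f : E n → ℝ} (hf : TF f) {s : ℝ} (h0 : 0 < s) (x : E n) :
    heat f s x ^ 2 ≤ heat (fun y => f y ^ 2) s x := by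
  obtain ⟨C, hC⟩ := tf_bdd hf
  have hKi : Integrable (K s : E n → ℝ) := K_integrable s h0
  have hKc : Continuous (K s : E n → ℝ) := by
    unfold K
    exact continuous_const.mul (Real.continuous_exp.comp
      ((continuous_norm.pow 2).div_const (4 * s)).neg)
  have hint : ∀ g : E n → ℝ, Continuous g → ∀ B : ℝ, (∀ y, |g y| ≤ B) →
      Integrable fun y => K s y * g (x - y) := by
    intro g hg B hB
    refine Integrable.mono' (hKi.mul_const B)
      (hKc.mul (hg.comp (continuous_const.sub continuous_id))).aestronglyMeasurable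
      (Eventually.of_forall fun z => ?_)
    rw [norm_mul, Real.norm_eq_abs, Real.norm_eq_abs, abs_of_pos (K_pos s h0 z)]
    exact mul_le_mul_of_nonneg_left (hB _) (K_pos s h0 z).le
  have i1 := hint f hf.1.continuous C hC
  have i2 : Integrable fun y => K s y * f (x - y) ^ 2 :=
    hint (fun y => f y ^ 2) (hf.1.continuous.pow 2) (C ^ 2) fun y => by
      rw [abs_pow]
      exact pow_le_pow_left₀ (abs_nonneg _) (hC y) 2
  set m : ℝ := heat f s x with hm
  have h1 : 0 ≤ ∫ y, K s y * (f (x - y) - m) ^ 2 :=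
    integral_nonneg fun y => mul_nonneg (K_pos s h0 y).le (sq_nonneg _)
  have h2 : ∫ y, K s y * (f (x - y) - m) ^ 2 =
      ∫ y, ((K s y * f (x - y) ^ 2 - (2 * m) * (K s y * f (x - y))) + m ^ 2 * K s y) := by
    refine integral_congr_ae (Eventually.of_forall fun y => ?_)
    simp only
    ring
  have h3 : ∫ y, ((K s y * f (x - y) ^ 2 - (2 * m) * (K s y * f (x - y))) + m ^ 2 * K s y) =
      heat (fun y => f y ^ 2) s x - (2 * m) * m + m ^ 2 := by
    have i3 : Integrable fun y => K s y * f (x - y) ^ 2 - (2 * m) * (K s y * f (x - y)) :=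
      i2.sub (i1.const_mul _)
    have e1 := integral_add i3 (hKi.const_mul (m ^ 2))
    have e2 := integral_sub i2 (i1.const_mul (2 * m))
    rw [integral_const_mul, K_integral s h0, mul_one] at e1
    rw [integral_const_mul] at e2
    rw [e1, e2]
    rfl
  rw [h2, h3] at h1
  nlinarith

theorem pf_L12 : T_L12 := by
  intro n f s h0 hf
  have hf2c : Continuous fun y => f y ^ 2 := hf.1.continuous.pow 2
  have hf2s : HasCompactSupport fun y => f y ^ 2 := by
    have h := hf.2.comp_left (g := fun t : ℝ => t ^ 2) (by norm_num)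
    exact h
  obtain ⟨a1, a2⟩ := L1 hf.1.continuous hf.2 h0
  obtain ⟨b1, b2⟩ := L1 hf2c hf2s h0
  have hJ := jensen hf h0
  have hi : Integrable fun x => heat f s x ^ 2 := by
    refine Integrable.mono' b1 (a1.1.pow 2) (Eventually.of_forall fun x => ?_)
    rw [Real.norm_eq_abs, abs_of_nonneg (sq_nonneg _)]
    exact hJ x
  refine ⟨a1, a2, hi, ?_⟩
  calc ∫ x, heat f s x ^ 2 ≤ ∫ x, |heat (fun y => f y ^ 2) s x| :=
        integral_mono hi b1.abs fun x => (hJ x).trans (le_abs_self _)
    _ ≤ ∫ x, |f x ^ 2| := b2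
    _ = ∫ x, f x ^ 2 := by
        refine integral_congr_ae (Eventually.of_forall fun x => ?_)
        exact abs_of_nonneg (sq_nonneg _)

end Pool.Agent.H38.TRI
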