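import Pool.Agent.H25.TRI.Targets

set_option autoImplicit false

namespace Pool.Agent.H38.TRI

open MeasureTheory Metric Set Filter Topology Pool.Agent.H87.SN Pool.Agent.H25.TRI
open scoped ContDiff RealInnerProductSpace ENNReal

/-- translation of a ball -/
theorem lint_ball_sub {n : ℕ} (g : E n → ℝ≥0∞) (y c : E n) (r : ℝ) :
    ∫⁻ x in ball y r, g (x - c) = ∫⁻ x in ball (y - c) r, g x := by
  rw [← lintegral_indicator measurableSet_ball, ← lintegral_indicator measurableSet_ball,
    ← lintegral_sub_right_eq_self (fun x => (ball (y - c) r).indicator g x) c]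
  refine lintegral_congr fun x => ?_
  by_cases hx : x ∈ ball y r
  · have h1 : x - c ∈ ball (y - c) r := by
      rw [mem_ball] at hx ⊢
      rwa [dist_sub_right]
    rw [indicator_of_mem hx, indicator_of_mem h1]
  · have h1 : x - c ∉ ball (y - c) r := by
      rw [mem_ball] at hx ⊢
      rwa [dist_sub_right]
    rw [indicator_of_notMem hx, indicator_of_notMem h1]

theorem pf_MOB (hGAU : T_GAU) : T_MOB := by
  intro n f M hf hM hMor s y r hr
  obtain ⟨hpos, hone, hmom, hsm, -⟩ := hGAU n
  have hint : Integrable (gam : E n → ℝ) := by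
    have h := hmom 0
    simpa using h
  have hgc : Continuous (gam : E n → ℝ) := hsm.continuous
  have h1 : ∀ x : E n, ‖U f s x‖ₑ ≤ ∫⁻ z, ‖gam z‖ₑ * ‖f (x - Real.sqrt s • z)‖ₑ := by
    intro x
    unfold U
    refine (enorm_integral_le_lintegral_enorm _).trans (le_of_eq ?_)
    exact lintegral_congr fun z => enorm_mul _ _
  have h2 : ∫⁻ z : E n, ‖gam z‖ₑ = 1 := by
    have h3 := ofReal_integral_norm_eq_lintegral_enorm hint
    rw [← h3]
    have h4 : ∫ z : E n, ‖gam z‖ = 1 := by
      rw [← hone]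
      refine integral_congr_ae (Eventually.of_forall fun z => ?_)
      exact abs_of_pos (hpos z)
    rw [h4, ENNReal.ofReal_one]
  calc ∫⁻ x in ball y r, ‖U f s x‖ₑ
      ≤ ∫⁻ x in ball y r, ∫⁻ z, ‖gam z‖ₑ * ‖f (x - Real.sqrt s • z)‖ₑ :=
        lintegral_mono fun x => h1 x
    _ = ∫⁻ z, ∫⁻ x in ball y r, ‖gam z‖ₑ * ‖f (x - Real.sqrt s • z)‖ₑ := by
        refine lintegral_lintegral_swap ?_
        refine Measurable.aemeasurable ?_
        have m1 : Measurable fun p : E n × E n => ‖gam p.2‖ₑ :=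
          (hgc.measurable.comp measurable_snd).enorm
        have m2 : Measurable fun p : E n × E n => ‖f (p.1 - Real.sqrt s • p.2)‖ₑ :=
          (hf.continuous.comp (continuous_fst.sub
            (continuous_snd.const_smul (Real.sqrt s)))).measurable.enorm
        exact m1.mul m2
    _ = ∫⁻ z, ‖gam z‖ₑ * ∫⁻ x in ball (y - Real.sqrt s • z) r, ‖f x‖ₑ := by
        refine lintegral_congr fun z => ?_
        rw [lintegral_const_mul' _ _ enorm_ne_top]
        congr 1
        exact lint_ball_sub (fun x => ‖f x‖ₑ) y (Real.sqrt s • z) r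
    _ ≤ ∫⁻ z : E n, ‖gam z‖ₑ * ENNReal.ofReal (M * r ^ (n - 1)) :=
        lintegral_mono fun z => mul_le_mul_right (hMor _ r hr) _
    _ = ENNReal.ofReal (M * r ^ (n - 1)) := by
        rw [lintegral_mul_const' _ _ ENNReal.ofReal_ne_top, h2, one_mul]

end Pool.Agent.H38.TRI
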