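import Pool.Agent.H25.TRI.Targets

set_option autoImplicit false

namespace Pool.Agent.H38.TRI

open MeasureTheory Metric Set Filter Topology Pool.Agent.H87.SN Pool.Agent.H25.TRI
open scoped ContDiff RealInnerProductSpace ENNReal

theorem gam_int (hGAU : T_GAU) (n : ℕ) : Integrable (gam : E n → ℝ) := by
  have h := (hGAU n).2.2.1 0
  simpa using h

theorem pf_UBA (hGAU : T_GAU) : T_UBA := by
  intro n f hf hb
  obtain ⟨hpos, hone, -, -, -⟩ := hGAU n
  have hint := gam_int hGAU n
  have hgc : Continuous (gam : E n → ℝ) := (hGAU n).2.2.2.1.continuous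
  have hbd : ∀ C : ℝ, (∀ x, |f x| ≤ C) → ∀ (s : ℝ) (x z : E n),
      ‖gam z * f (x - Real.sqrt s • z)‖ ≤ gam z * C := by
    intro C hC s x z
    rw [norm_mul, Real.norm_eq_abs, Real.norm_eq_abs, abs_of_pos (hpos z)]
    exact mul_le_mul_of_nonneg_left (hC _) (hpos z).le
  refine ⟨?_, ?_, ?_⟩
  · obtain ⟨C, hC⟩ := hb
    unfold U
    refine continuous_of_dominated (bound := fun z => gam z * C) ?_ ?_ (hint.mul_const C) ?_
    · intro p
      refine Continuous.aestronglyMeasurable ?_
      exact hgc.mul (hf.comp (continuous_const.sub (continuous_id.const_smul (Real.sqrt p.1))))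
    · intro p
      exact Eventually.of_forall fun z => hbd C hC p.1 p.2 z
    · refine Eventually.of_forall fun z => ?_
      refine continuous_const.mul (hf.comp ?_)
      exact continuous_snd.sub ((Real.continuous_sqrt.comp continuous_fst).smul continuous_const)
  · intro x
    unfold U
    simp only [Real.sqrt_zero, zero_smul, sub_zero]
    rw [integral_mul_const, hone, one_mul]
  · intro C hC s x
    unfold U
    have h1 := norm_integral_le_of_norm_le (hint.mul_const C)
      (Eventually.of_forall fun z => hbd C hC s x z)
    rw [integral_mul_const, hone, one_mul, Real.norm_eq_abs] at h1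
    exact h1

end Pool.Agent.H38.TRI
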